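import Pool.Agent.Helper84.OX.St

/-!
# Project OX (MP_2c90c1_al), module LAQ
-/

set_option autoImplicit false

namespace Pool.Agent.Helper39.OX

open Pool.Agent.Helper96.UT hiding StTOP TopV TopE tht Bd VC EC
open Pool.Agent.Helper96.GU
open Pool.Agent.Helper84.OX

theorem pLAQ : StLAQ := by
  classical
  intro α Z Ω _ C v hCpx hHh hCne
  obtain ⟨u₀, hu₀⟩ := hCne
  have hVne : (VC Z C).Nonempty := ⟨_, VC_self Z C hCpx.fix hu₀⟩
  have h1 := (aLA α Ω (EC Z C) (VC Z C) {u // u ∈ C} (LinearMap.pi fun u : {u // u ∈ C} => SaL u.1 Z.s) hVne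
    (ends_EC Z C hCpx.fix)
    (fun φ _ hΛ => by
      have hz : ∀ u ∈ C, Sa φ u Z.s = 0 := fun u hu => congrFun hΛ ⟨u, hu⟩
      exact potential (EC Z C) φ (hHh φ hz (fun h hh => absurd hh (Set.notMem_empty h))))).1
  rwa [Fintype.card_coe] at h1

end Pool.Agent.Helper39.OX

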