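import Pool.Agent.Helper84.OX.St

/-!
# Project OX (MP_2c90c1_al), module LR1
-/

set_option autoImplicit false

namespace Pool.Agent.Helper39.OX

open Pool.Agent.Helper96.UT hiding StTOP TopV TopE tht Bd VC EC
open Pool.Agent.Helper96.GU
open Pool.Agent.Helper84.OX

private theorem Sm_zero' {α Ω : Type} [MulAction (FreeGroup α) Ω] (v : Ω) (w : List (α × Bool)) :
    Sm (fun _ : Ω × α => (0 : ℚ)) v w = 0 := by
  induction w generalizing v with
  | nil => rfl
  | cons x w ih => simp [Sm, ih]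

theorem pLR1 : StLR1 := by
  classical
  intro α Z Ω _ E V v hv hE hJ
  let ex : ({x // x ∈ V} → ℚ) →ₗ[ℚ] (Ω → ℚ) :=
    { toFun := fun f x => if h : x ∈ V then f ⟨x, h⟩ else 0
      map_add' := by
        intro f g
        funext x
        by_cases h : x ∈ V <;> simp [h]
      map_smul' := by
        intro c f
        funext x
        by_cases h : x ∈ V <;> simp [h] }
  let δ : ({x // x ∈ V} → ℚ) →ₗ[ℚ] ({e // e ∈ E} → ℚ) :=
    LinearMap.pi fun e =>
      ((LinearMap.proj (act e.1.1 (lt (e.1.2, true))) : (Ω → ℚ) →ₗ[ℚ] ℚ) -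
        (LinearMap.proj e.1.1 : (Ω → ℚ) →ₗ[ℚ] ℚ)).comp ex
  have hδ : ∀ f e, δ f e = ex f (act e.1.1 (lt (e.1.2, true))) - ex f e.1.1 := fun f e => rfl
  have hrn := LinearMap.finrank_range_add_finrank_ker δ
  have h1 : Module.finrank ℚ ({x // x ∈ V} → ℚ) = V.card := by simp
  have h2 : Module.finrank ℚ ({e // e ∈ E} → ℚ) = E.card := by simp
  have hker : Module.finrank ℚ (LinearMap.ker δ) ≤ 1 := by
    have hle : LinearMap.ker δ ≤ Submodule.span ℚ {(fun _ => (1 : ℚ) : {x // x ∈ V} → ℚ)} := by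
      intro f hf
      rw [Submodule.mem_span_singleton]
      refine ⟨f ⟨v, hv⟩, ?_⟩
      funext x
      obtain ⟨w, hw1, hw2⟩ := hJ x.1 x.2
      have h3 := Sm_cob (ex f) v w
      have h4 : Sm (fun e => ex f (act e.1 (lt (e.2, true))) - ex f e.1) v w = 0 := by
        rw [← Sm_zero' v w]
        refine Sm_congr_on (E := (E : Set (Ω × α))) ?_ hw1
        intro e he
        have h5 := congrFun (LinearMap.mem_ker.1 hf) ⟨e, he⟩
        rw [hδ] at h5
        exact h5
      rw [h4, hw2] at h3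
      have h6 : ex f x.1 = f x := by
        change (if h : x.1 ∈ V then f ⟨x.1, h⟩ else 0) = f x
        rw [dif_pos x.2]
      have h7 : ex f v = f ⟨v, hv⟩ := by
        change (if h : v ∈ V then f ⟨v, h⟩ else 0) = f ⟨v, hv⟩
        rw [dif_pos hv]
      rw [h6, h7] at h3
      change f ⟨v, hv⟩ * 1 = f x
      linarith
    exact (Submodule.finrank_mono hle).trans ((finrank_span_le_card _).trans (by simp))
  have hrg : Module.finrank ℚ (LinearMap.range δ) ≤ E.card := by
    rw [← h2]
    exact Submodule.finrank_le _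
  rw [h1] at hrn
  refine ⟨by omega, fun h => ?_⟩
  have htop : LinearMap.range δ = ⊤ := by
    apply Submodule.eq_top_of_finrank_eq
    rw [h2]
    omega
  intro φ _ _ x q hq hx
  obtain ⟨f, hf⟩ := LinearMap.range_eq_top.1 htop (fun e => φ e.1)
  have h3 : Sm φ x q = Sm (fun e => ex f (act e.1 (lt (e.2, true))) - ex f e.1) x q := by
    refine Sm_congr_on (E := (E : Set (Ω × α))) ?_ hq
    intro e he
    have h5 := congrFun hf ⟨e, he⟩
    rw [hδ] at h5
    exact h5.symm
  rw [h3, Sm_cob, hx, sub_self]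

end Pool.Agent.Helper39.OX

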