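import Pool.Agent.Helper84.OX.St

/-!
# Project OX (MP_2c90c1_al), module PPL
-/

set_option autoImplicit false

namespace Pool.Agent.Helper39.OX

open Pool.Agent.Helper96.UT hiding StTOP TopV TopE tht Bd VC EC
open Pool.Agent.Helper96.GU
open Pool.Agent.Helper84.OX

theorem pPPL : StPPL := by
  intro α Z Ω _ D D₁ y₀ hD hD₁ w
  have hD1 : ∀ u ∈ D₁, act u Z.s = u := fun u h => hD u ((hD₁ u).1 h).1
  induction w with
  | nil => intro x _ _; trivial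
  | cons z w ih =>
    intro x hx hw
    obtain ⟨h1, h2⟩ := hw
    have h1' : ed x z ∈ EC Z D := h1
    obtain ⟨u, hu, k, hk⟩ := (mem_EC' Z D hD _).1 h1'
    have hsub : CE Z u ⊆ (EC Z D : Set (Ω × α)) := (cpx_EC Z D hD).sub u hu
    have hux : Jn (EC Z D : Set (Ω × α)) u x := by
      rcases ed_eq hk with ⟨e1, _⟩ | ⟨e1, _⟩
      · rw [e1]
        exact Jn_cell0 Z _ hsub k
      · rw [e1, act_pre_succ]
        exact Jn_cell0 Z _ hsub (k + 1)
    have hy : Jn (EC Z D : Set (Ω × α)) y₀ u := Jn.trans hx (Jn.symm hux)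
    have hu1 : u ∈ D₁ := (hD₁ u).2 ⟨hu, hy⟩
    have h3 : ed x z ∈ EC Z D₁ := (mem_EC' Z D₁ hD1 _).2 ⟨u, hu1, k, hk⟩
    refine ⟨h3, ih _ ?_ h2⟩
    exact Jn.trans hx ⟨[z], ⟨h1, trivial⟩, rfl⟩

end Pool.Agent.Helper39.OX

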